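import Pool.Agent.Helper40.DZ.Stmts

/-! Module XMN: the theorem for products of entries of the cocycle. -/

open Finset Filter MeasureTheory Topology
open scoped ComplexConjugate InnerProductSpace

namespace Pool.Agent.Helper40.DZ

open Pool.Agent.Helper16.AZ (T E Op mm)
open Pool.Agent.Helper16.BZ (co ff co_succ co_zero)
open Pool.Agent.Helper16.MD (MS)

namespace XMNaux

/-- the entry or its conjugate -/
noncomputable def ent {n : ℕ} (b : Bool) (M : Matrix (Fin n) (Fin n) ℂ) (i j : Fin n) : ℂ :=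
  if b then M i j else conj (M i j)

theorem ent_mul {n : ℕ} (b : Bool) (M N : Matrix (Fin n) (Fin n) ℂ) (i j : Fin n) :
    ent b (M * N) i j = ∑ k, ent b M i k * ent b N k j := by
  unfold ent
  cases b
  · simp [Matrix.mul_apply, map_sum, map_mul]
  · simp [Matrix.mul_apply]

theorem ent_one {n : ℕ} (b : Bool) (i j : Fin n) :
    ent b (1 : Matrix (Fin n) (Fin n) ℂ) i j = if i = j then 1 else 0 := by
  unfold ent
  by_cases h : i = j
  · subst h
    cases b <;> simp
  · cases b <;> simp [Matrix.one_apply_ne h, h]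

theorem ent_star {n : ℕ} (b : Bool) (M : Matrix (Fin n) (Fin n) ℂ) (i j : Fin n) :
    star (ent b M j i) = ent b (star M) i j := by
  unfold ent
  cases b <;> simp [Matrix.star_apply]

theorem ent_cont {n : ℕ} (b : Bool) (i j : Fin n) :
    Continuous fun M : Matrix (Fin n) (Fin n) ℂ => ent b M i j := by
  have h : Continuous fun M : Matrix (Fin n) (Fin n) ℂ => M i j :=
    continuous_id.matrix_elem i j
  unfold ent
  cases b
  · simp only [Bool.false_eq_true, if_false]
    exact Complex.continuous_conj.comp h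
  · simp only [if_true]
    exact h

variable {d : ℕ → ℕ} {L D : ℕ}

/-- families of matrices -/
abbrev MF (d : ℕ → ℕ) : Type := ∀ k : ℕ, Matrix (Fin (d k)) (Fin (d k)) ℂ

/-- the Kronecker product -/
noncomputable def kr (s : Fin L → Bool) (k : Fin L → ℕ) (e : Fin D ≃ (∀ l : Fin L, Fin (d (k l))))
    (M : MF d) : Matrix (Fin D) (Fin D) ℂ :=
  Matrix.of fun a b => ∏ l, ent (s l) (M (k l)) (e a l) (e b l)

variable (s : Fin L → Bool) (k : Fin L → ℕ) (e : Fin D ≃ (∀ l : Fin L, Fin (d (k l))))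

theorem kr_apply (M : MF d) (a b : Fin D) :
    kr s k e M a b = ∏ l, ent (s l) (M (k l)) (e a l) (e b l) := rfl

theorem kr_mul (M N : MF d) : kr s k e (M * N) = kr s k e M * kr s k e N := by
  ext a b
  rw [Matrix.mul_apply, kr_apply]
  simp_rw [Pi.mul_apply, ent_mul]
  rw [Finset.prod_univ_sum, Fintype.piFinset_univ]
  rw [← Equiv.sum_comp e]
  refine Finset.sum_congr rfl fun c _ => ?_
  rw [kr_apply, kr_apply, ← Finset.prod_mul_distrib]

theorem kr_one : kr s k e (1 : MF d) = 1 := by
  ext a b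
  rw [kr_apply]
  simp_rw [Pi.one_apply, ent_one]
  by_cases h : a = b
  · subst h
    simp
  · rw [Matrix.one_apply_ne h]
    obtain ⟨l, hl⟩ : ∃ l, e a l ≠ e b l := by
      by_contra hc
      push Not at hc
      exact h (e.injective (funext hc))
    exact Finset.prod_eq_zero (Finset.mem_univ l) (by rw [if_neg hl])

theorem kr_star (M : MF d) : star (kr s k e M) = kr s k e (star M) := by
  ext a b
  rw [Matrix.star_apply, kr_apply, kr_apply, star_prod]
  exact Finset.prod_congr rfl fun l _ => ent_star _ _ _ _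

/-- the matrices of an element of the group -/
def um (g : UU d) : MF d := fun k => (g k : Matrix (Fin (d k)) (Fin (d k)) ℂ)

theorem um_mul (g h : UU d) : um (g * h) = um g * um h := rfl

theorem kr_unitary (g : UU d) : kr s k e (um g) ∈ unitary (Matrix (Fin D) (Fin D) ℂ) := by
  have h1 : star (um g) * um g = 1 := funext fun k => Matrix.mem_unitaryGroup_iff'.1 (g k).2
  have h2 : um g * star (um g) = 1 := funext fun k => Matrix.mem_unitaryGroup_iff.1 (g k).2
  rw [Unitary.mem_iff, kr_star, ← kr_mul, ← kr_mul, h1, h2, kr_one]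
  exact ⟨rfl, rfl⟩

theorem kr_cont : Continuous (kr s k e) := by
  refine continuous_matrix fun a b => ?_
  have h : Continuous fun M : MF d => ∏ l, ent (s l) (M (k l)) (e a l) (e b l) :=
    continuous_finsetProd _ fun l _ => (ent_cont _ _ _).comp (continuous_apply (k l))
  exact h

theorem um_cont : Continuous (um : UU d → MF d) :=
  continuous_pi fun k => continuous_subtype_val.comp (continuous_apply k)

theorem toE_cont (D : ℕ) : Continuous (fun M : Matrix (Fin D) (Fin D) ℂ =>
    (Matrix.toEuclideanCLM (𝕜 := ℂ) M : Op D)) := by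
  let L : Matrix (Fin D) (Fin D) ℂ →ₗ[ℂ] Op D :=
    { toFun := fun M => Matrix.toEuclideanCLM (𝕜 := ℂ) M
      map_add' := fun x y => map_add _ x y
      map_smul' := fun c x => map_smul _ c x }
  exact L.continuous_of_finiteDimensional

theorem toE_entry (M : Matrix (Fin D) (Fin D) ℂ) (i k : Fin D) :
    inner ℂ (EuclideanSpace.single i (1 : ℂ))
      ((Matrix.toEuclideanCLM (𝕜 := ℂ) M : Op D) (EuclideanSpace.single k (1 : ℂ))) = M i k := by
  rw [EuclideanSpace.inner_single_left, Matrix.ofLp_toEuclideanCLM]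
  simp [Matrix.mulVec, dotProduct]

theorem toE_unitary {M : Matrix (Fin D) (Fin D) ℂ} (h : M ∈ unitary (Matrix (Fin D) (Fin D) ℂ)) :
    (Matrix.toEuclideanCLM (𝕜 := ℂ) M : Op D) ∈ unitary (Op D) := by
  rw [Unitary.mem_iff] at h ⊢
  rw [← map_star, ← map_mul, ← map_mul, h.1, h.2, map_one]
  exact ⟨rfl, rfl⟩

end XMNaux

open XMNaux in
theorem st_XMN : ST_XMN := by
  intro r d S Φ hS hΦ f L s k I J y
  obtain ⟨D, hD⟩ : ∃ D, D = Fintype.card (∀ l : Fin L, Fin (d (k l))) := ⟨_, rfl⟩
  obtain ⟨e⟩ : Nonempty (Fin D ≃ (∀ l : Fin L, Fin (d (k l)))) := by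
    rw [hD]
    exact ⟨(Fintype.equivFin _).symm⟩
  set φ : T r → Op D := fun x => Matrix.toEuclideanCLM (𝕜 := ℂ) (kr s k e (um (Φ x))) with hφ
  have hUR : UR φ := by
    refine ⟨?_, fun x => toE_unitary (kr_unitary s k e (Φ x))⟩
    filter_upwards [hΦ] with x hx
    exact ((toE_cont _).comp ((kr_cont s k e).comp um_cont)).continuousAt.comp hx
  have hit : ∀ n : ℕ, ((SK3 S Φ)^[n] y).1 = S^[n] y.1 ∧
      (Matrix.toEuclideanCLM (𝕜 := ℂ) (kr s k e (um ((SK3 S Φ)^[n] y).2)) : Op D) =
      co S φ n y.1 * Matrix.toEuclideanCLM (𝕜 := ℂ) (kr s k e (um y.2)) := by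
    intro n
    induction n with
    | zero =>
      refine ⟨rfl, ?_⟩
      rw [co_zero, one_mul]
      rfl
    | succ n ih =>
      obtain ⟨h1, h2⟩ := ih
      rw [Function.iterate_succ_apply', Function.iterate_succ_apply']
      refine ⟨?_, ?_⟩
      · show S ((SK3 S Φ)^[n] y).1 = _
        rw [h1]
      · show Matrix.toEuclideanCLM (𝕜 := ℂ) (kr s k e (um (Φ ((SK3 S Φ)^[n] y).1 *
          ((SK3 S Φ)^[n] y).2))) = _
        rw [um_mul, kr_mul, map_mul, h2, h1, co_succ, mul_assoc]
  have hv : Continuous (fun x : T r => conj (f x) •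
      (EuclideanSpace.single (e.symm I) (1 : ℂ) : E D)) :=
    (Complex.continuous_conj.comp f.continuous).smul continuous_const
  have key := hS D φ (fun x : T r => conj (f x) •
      (EuclideanSpace.single (e.symm I) (1 : ℂ) : E D))
      ((Matrix.toEuclideanCLM (𝕜 := ℂ) (kr s k e (um y.2)) : Op D)
        (EuclideanSpace.single (e.symm J) (1 : ℂ))) y.1 hUR hv
  refine key.congr fun N => ?_
  congr 2
  funext n
  obtain ⟨h1, h2⟩ := hit n
  unfold ff
  have h3 : co S φ n y.1 ((Matrix.toEuclideanCLM (𝕜 := ℂ) (kr s k e (um y.2)) : Op D)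
      (EuclideanSpace.single (e.symm J) (1 : ℂ))) =
      (Matrix.toEuclideanCLM (𝕜 := ℂ) (kr s k e (um ((SK3 S Φ)^[n] y).2)) : Op D)
        (EuclideanSpace.single (e.symm J) (1 : ℂ)) := by
    rw [h2]
    rfl
  rw [h3, inner_smul_left, toE_entry, Complex.conj_conj, kr_apply, h1]
  congr 1
  unfold mono ent um
  refine Finset.prod_congr rfl fun l _ => ?_
  rw [Equiv.apply_symm_apply, Equiv.apply_symm_apply]

end Pool.Agent.Helper40.DZ
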