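import Pool.Agent.Helper40.DZ.Stmts2
import Pool.Agent.Helper97.DZ.XMN

/-! Module XMN4: the theorem for products of entries of the cocycle, arbitrary measure. -/

open Finset Filter MeasureTheory Topology
open scoped ComplexConjugate InnerProductSpace

namespace Pool.Agent.Helper40.DZ

open Pool.Agent.Helper16.AZ (T E Op mm)
open Pool.Agent.Helper16.BZ (co ff co_succ co_zero)
open Pool.Agent.Helper16.MD (MS)

open XMNaux in
theorem st_XMN4 : ST_XMN4 := by
  intro r d ν S Φ hS hΦ f L s k I J y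
  obtain ⟨D, hD⟩ : ∃ D, D = Fintype.card (∀ l : Fin L, Fin (d (k l))) := ⟨_, rfl⟩
  obtain ⟨e⟩ : Nonempty (Fin D ≃ (∀ l : Fin L, Fin (d (k l)))) := by
    rw [hD]
    exact ⟨(Fintype.equivFin _).symm⟩
  set φ : T r → Op D := fun x => Matrix.toEuclideanCLM (𝕜 := ℂ) (kr s k e (um (Φ x))) with hφ
  have hU1 : ∀ᵐ x ∂ν, ContinuousAt φ x := by
    filter_upwards [hΦ] with x hx
    exact ((toE_cont _).comp ((kr_cont s k e).comp um_cont)).continuousAt.comp hx
  have hU2 : ∀ x, φ x ∈ unitary (Op D) := fun x => toE_unitary (kr_unitary s k e (Φ x))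
  have hit : ∀ n : ℕ, ((SK3 S Φ)^[n] y).1 = S^[n] y.1 ∧
      (Matrix.toEuclideanCLM (𝕜 := ℂ) (kr s k e (um ((SK3 S Φ)^[n] y).2)) : Op D) =
      co S φ n y.1 * Matrix.toEuclideanCLM (𝕜 := ℂ) (kr s k e (um y.2)) := by
    intro n
    induction n with
    | zero =>
      refine ⟨rfl, ?_⟩
      rw [co_zero, one_mul]
      rfl
    | succ n ih =>
      obtain ⟨h1, h2⟩ := ih
      rw [Function.iterate_succ_apply', Function.iterate_succ_apply']
      refine ⟨?_, ?_⟩
      · show S ((SK3 S Φ)^[n] y).1 = _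
        rw [h1]
      · show Matrix.toEuclideanCLM (𝕜 := ℂ) (kr s k e (um (Φ ((SK3 S Φ)^[n] y).1 *
          ((SK3 S Φ)^[n] y).2))) = _
        rw [um_mul, kr_mul, map_mul, h2, h1, co_succ, mul_assoc]
  have hv : Continuous (fun x : T r => conj (f x) •
      (EuclideanSpace.single (e.symm I) (1 : ℂ) : E D)) :=
    (Complex.continuous_conj.comp f.continuous).smul continuous_const
  have key := hS D φ (fun x : T r => conj (f x) •
      (EuclideanSpace.single (e.symm I) (1 : ℂ) : E D))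
      ((Matrix.toEuclideanCLM (𝕜 := ℂ) (kr s k e (um y.2)) : Op D)
        (EuclideanSpace.single (e.symm J) (1 : ℂ))) y.1 hU1 hU2 hv
  refine key.congr fun N => ?_
  congr 2
  funext n
  obtain ⟨h1, h2⟩ := hit n
  unfold ff
  have h3 : co S φ n y.1 ((Matrix.toEuclideanCLM (𝕜 := ℂ) (kr s k e (um y.2)) : Op D)
      (EuclideanSpace.single (e.symm J) (1 : ℂ))) =
      (Matrix.toEuclideanCLM (𝕜 := ℂ) (kr s k e (um ((SK3 S Φ)^[n] y).2)) : Op D)
        (EuclideanSpace.single (e.symm J) (1 : ℂ)) := by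
    rw [h2]
    rfl
  rw [h3, inner_smul_left, toE_entry, Complex.conj_conj, kr_apply, h1]
  congr 1
  unfold mono ent um
  refine Finset.prod_congr rfl fun l _ => ?_
  rw [Equiv.apply_symm_apply, Equiv.apply_symm_apply]

end Pool.Agent.Helper40.DZ
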