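import Pool.Agent.Helper40.DZ.Stmts

/-! Module XSD: density of the products of entries. -/

open Finset Filter MeasureTheory Topology
open scoped ComplexConjugate InnerProductSpace

namespace Pool.Agent.Helper40.DZ

open Pool.Agent.Helper16.AZ (T E Op mm)

namespace XSDaux

/-- an entry or the conjugate of an entry -/
abbrev Letter (d : ℕ → ℕ) : Type := Σ (_ : Bool) (k : ℕ), Fin (d k) × Fin (d k)

/-- the function of a letter -/
noncomputable def val {d : ℕ → ℕ} (w : Letter d) (g : UU d) : ℂ :=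
  if w.1 then (g w.2.1 : Matrix (Fin (d w.2.1)) (Fin (d w.2.1)) ℂ) w.2.2.1 w.2.2.2
    else conj ((g w.2.1 : Matrix (Fin (d w.2.1)) (Fin (d w.2.1)) ℂ) w.2.2.1 w.2.2.2)

theorem mono_eq {d : ℕ → ℕ} {L : ℕ} (s : Fin L → Bool) (k : Fin L → ℕ)
    (I J : ∀ l : Fin L, Fin (d (k l))) (g : UU d) :
    mono s k I J g = ∏ l, val (⟨s l, k l, I l, J l⟩ : Letter d) g := rfl

theorem val_cont {d : ℕ → ℕ} (w : Letter d) : Continuous (val w) := by
  obtain ⟨b, k, i, j⟩ := w
  have h1 : Continuous fun g : UU d => (g k : Matrix (Fin (d k)) (Fin (d k)) ℂ) :=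
    continuous_subtype_val.comp (continuous_apply k)
  have h : Continuous fun g : UU d => (g k : Matrix (Fin (d k)) (Fin (d k)) ℂ) i j :=
    h1.matrix_elem i j
  unfold val
  cases b
  · simp only [Bool.false_eq_true, if_false]
    exact Complex.continuous_conj.comp h
  · simp only [if_true]
    exact h

/-- the conjugate letter -/
def flip {d : ℕ → ℕ} (w : Letter d) : Letter d := ⟨!w.1, w.2⟩

theorem val_flip {d : ℕ → ℕ} (w : Letter d) (g : UU d) : val (flip w) g = conj (val w g) := by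
  obtain ⟨b, k, i, j⟩ := w
  cases b <;> simp [val, flip]

/-- the generators as continuous functions -/
noncomputable def gen {r : ℕ} {d : ℕ → ℕ} {L : ℕ} (f : C(T r, ℂ)) (w : Fin L → Letter d) :
    C(T r × UU d, ℂ) :=
  ⟨fun y => f y.1 * ∏ l, val (w l) y.2, (f.continuous.comp continuous_fst).mul
    (continuous_finsetProd _ fun l _ => (val_cont (w l)).comp continuous_snd)⟩

end XSDaux

open XSDaux in
theorem st_XSD : ST_XSD := by
  intro r d
  set S : Set C(T r × UU d, ℂ) := {F : C(T r × UU d, ℂ) |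
    ∃ (f : C(T r, ℂ)) (L : ℕ) (s : Fin L → Bool) (k : Fin L → ℕ)
      (I J : ∀ l : Fin L, Fin (d (k l))), ∀ y, F y = f y.1 * mono s k I J y.2} with hS
  have hS2 : ∀ F : C(T r × UU d, ℂ), F ∈ S ↔ ∃ (f : C(T r, ℂ)) (L : ℕ) (w : Fin L → Letter d),
      ∀ y, F y = f y.1 * ∏ l, val (w l) y.2 := by
    intro F
    constructor
    · rintro ⟨f, L, s, k, I, J, h⟩
      exact ⟨f, L, fun l => ⟨s l, k l, I l, J l⟩, h⟩
    · rintro ⟨f, L, w, h⟩
      exact ⟨f, L, fun l => (w l).1, fun l => (w l).2.1, fun l => (w l).2.2.1,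
        fun l => (w l).2.2.2, h⟩
  have hone : (1 : C(T r × UU d, ℂ)) ∈ S := by
    refine (hS2 _).2 ⟨1, 0, Fin.elim0, fun y => ?_⟩
    simp
  have hmul : ∀ x ∈ S, ∀ y ∈ S, x * y ∈ S := by
    intro x hx y hy
    obtain ⟨f, L, w, hx⟩ := (hS2 _).1 hx
    obtain ⟨f', L', w', hy⟩ := (hS2 _).1 hy
    refine (hS2 _).2 ⟨f * f', L + L', Fin.append w w', fun z => ?_⟩
    rw [ContinuousMap.mul_apply, ContinuousMap.mul_apply, hx, hy, Fin.prod_univ_add]
    simp only [Fin.append_left, Fin.append_right]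
    ring
  have hstar : ∀ x ∈ S, star x ∈ S := by
    intro x hx
    obtain ⟨f, L, w, hx⟩ := (hS2 _).1 hx
    refine (hS2 _).2 ⟨star f, L, fun l => flip (w l), fun z => ?_⟩
    rw [ContinuousMap.star_apply, ContinuousMap.star_apply, hx, star_mul', star_prod]
    congr 1
    exact Finset.prod_congr rfl fun l _ => (val_flip _ _).symm
  have hspan : ∀ x ∈ Submodule.span ℂ S, star x ∈ Submodule.span ℂ S := by
    intro x hx
    induction hx using Submodule.span_induction with
    | mem x h => exact Submodule.subset_span (hstar x h)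
    | zero => rw [star_zero]; exact Submodule.zero_mem _
    | add x y _ _ hx hy => rw [star_add]; exact Submodule.add_mem _ hx hy
    | smul c x _ hx => rw [star_smul]; exact Submodule.smul_mem _ _ hx
  have hadj : ∀ x ∈ StarAlgebra.adjoin ℂ S, x ∈ Submodule.span ℂ S := by
    intro x hx
    induction hx using StarAlgebra.adjoin_induction with
    | mem x h => exact Submodule.subset_span h
    | algebraMap c =>
      rw [Algebra.algebraMap_eq_smul_one]
      exact Submodule.smul_mem _ _ (Submodule.subset_span hone)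
    | add x y _ _ hx hy => exact Submodule.add_mem _ hx hy
    | mul x y _ _ hx hy =>
      have h1 : x * y ∈ Submodule.span ℂ S * Submodule.span ℂ S := Submodule.mul_mem_mul hx hy
      rw [Submodule.span_mul_span] at h1
      refine Submodule.span_mono ?_ h1
      rintro z ⟨a, ha, b, hb, rfl⟩
      exact hmul a ha b hb
    | star x _ hx => exact hspan x hx
  have hsep : (StarAlgebra.adjoin ℂ S).SeparatesPoints := by
    intro x y hxy
    by_cases h1 : x.1 = y.1
    · have h2 : x.2 ≠ y.2 := fun h => hxy (Prod.ext h1 h)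
      obtain ⟨k, hk⟩ : ∃ k, x.2 k ≠ y.2 k := by
        by_contra hc
        push Not at hc
        exact h2 (funext hc)
      have h3 : (x.2 k : Matrix (Fin (d k)) (Fin (d k)) ℂ) ≠
          (y.2 k : Matrix (Fin (d k)) (Fin (d k)) ℂ) := fun h => hk (Subtype.ext h)
      obtain ⟨i, hi⟩ : ∃ i, ∃ j, (x.2 k : Matrix (Fin (d k)) (Fin (d k)) ℂ) i j
          ≠ (y.2 k : Matrix (Fin (d k)) (Fin (d k)) ℂ) i j := by
        by_contra hc
        push Not at hc
        exact h3 (Matrix.ext hc)
      obtain ⟨j, hij⟩ := hi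
      refine ⟨_, ⟨gen 1 (fun _ : Fin 1 => (⟨true, k, i, j⟩ : Letter d)),
        StarAlgebra.subset_adjoin ℂ S ((hS2 _).2 ⟨1, 1, _, fun y => rfl⟩), rfl⟩, ?_⟩
      simpa [gen, XSDaux.val] using hij
    · obtain ⟨f, hf⟩ : ∃ f : C(T r, ℂ), f x.1 ≠ f y.1 := by
        refine ⟨⟨fun z => ((dist z y.1 : ℝ) : ℂ),
          Complex.continuous_ofReal.comp (continuous_id.dist continuous_const)⟩, ?_⟩
        show ((dist x.1 y.1 : ℝ) : ℂ) ≠ ((dist y.1 y.1 : ℝ) : ℂ)
        rw [dist_self, Ne, Complex.ofReal_inj]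
        exact dist_ne_zero.2 h1
      refine ⟨_, ⟨gen f (Fin.elim0 : Fin 0 → Letter d),
        StarAlgebra.subset_adjoin ℂ S ((hS2 _).2 ⟨f, 0, _, fun y => rfl⟩), rfl⟩, ?_⟩
      simpa [gen] using hf
  have htop := ContinuousMap.starSubalgebra_topologicalClosure_eq_top_of_separatesPoints
    (StarAlgebra.adjoin ℂ S) hsep
  refine Set.eq_univ_of_univ_subset fun f _ => ?_
  have hf : f ∈ (StarAlgebra.adjoin ℂ S).topologicalClosure := by
    rw [htop]
    trivial
  have hf2 : f ∈ closure ((StarAlgebra.adjoin ℂ S : StarSubalgebra ℂ C(T r × UU d, ℂ)) :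
      Set C(T r × UU d, ℂ)) := hf
  exact closure_mono (fun x hx => hadj x hx) hf2

end Pool.Agent.Helper40.DZ
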