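import Pool.Agent.Helper40.DZ.Stmts

/-! Module XTH3: the theorem for skew products. -/

open Finset Filter MeasureTheory Topology
open scoped ComplexConjugate InnerProductSpace

namespace Pool.Agent.Helper40.DZ

open Pool.Agent.Helper16.AZ (T E Op mm)
open Pool.Agent.Helper16.MD (MS)

namespace XTHaux

theorem MS_add (f g : ℕ → ℂ) (N : ℕ) : MS (fun n => f n + g n) N = MS f N + MS g N := by
  unfold MS
  rw [← Finset.sum_add_distrib]
  exact Finset.sum_congr rfl fun n _ => mul_add _ _ _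

theorem MS_smul (c : ℂ) (f : ℕ → ℂ) (N : ℕ) : MS (fun n => c * f n) N = c * MS f N := by
  unfold MS
  rw [Finset.mul_sum]
  exact Finset.sum_congr rfl fun n _ => by ring

theorem MS_bound (f : ℕ → ℂ) (C : ℝ) (hf : ∀ n, ‖f n‖ ≤ C) (N : ℕ) :
    ‖MS f N‖ ≤ N * C := by
  unfold MS
  refine (norm_sum_le _ _).trans ?_
  have h : ∀ n ∈ Icc 1 N, ‖((ArithmeticFunction.moebius n : ℤ) : ℂ) * f n‖ ≤ C := by
    intro n _
    rw [norm_mul, Complex.norm_intCast]
    have h1 : |((ArithmeticFunction.moebius n : ℤ) : ℝ)| ≤ 1 := by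
      exact_mod_cast ArithmeticFunction.abs_moebius_le_one
    have h2 := norm_nonneg (f n)
    have h3 := hf n
    have h4 := abs_nonneg ((ArithmeticFunction.moebius n : ℤ) : ℝ)
    nlinarith
  refine (Finset.sum_le_sum h).trans ?_
  rw [Finset.sum_const, Nat.card_Icc, Nat.add_sub_cancel, nsmul_eq_mul]

/-- Moebius disjointness along an orbit is preserved by uniform limits. -/
theorem closure_step {Y : Type} [TopologicalSpace Y] [CompactSpace Y] (t : ℕ → Y)
    (S : Set C(Y, ℂ))
    (hS : ∀ F ∈ S, Tendsto (fun N : ℕ => MS (fun n => F (t n)) N / (N : ℂ)) atTop (𝓝 0))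
    (F : C(Y, ℂ)) (hF : F ∈ closure S) :
    Tendsto (fun N : ℕ => MS (fun n => F (t n)) N / (N : ℂ)) atTop (𝓝 0) := by
  rw [Metric.tendsto_atTop]
  intro ε hε
  obtain ⟨G, hG, hd⟩ := Metric.mem_closure_iff.1 hF (ε / 2) (by positivity)
  obtain ⟨N0, hN0⟩ := Metric.tendsto_atTop.1 (hS G hG) (ε / 2) (by positivity)
  refine ⟨max N0 1, fun N hN => ?_⟩
  have h1 := hN0 N (le_trans (le_max_left _ _) hN)
  have hN1 : 1 ≤ N := le_trans (le_max_right _ _) hN
  have hNp : (0 : ℝ) < N := by exact_mod_cast hN1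
  rw [dist_zero_right] at h1 ⊢
  have h2 : MS (fun n => F (t n)) N = MS (fun n => G (t n)) N
      + MS (fun n => F (t n) - G (t n)) N := by
    rw [← MS_add]
    congr 1
    funext n
    ring
  have h3 : ‖MS (fun n => F (t n) - G (t n)) N‖ ≤ N * dist F G := by
    refine MS_bound _ _ (fun n => ?_) N
    rw [← dist_eq_norm]
    exact ContinuousMap.dist_apply_le_dist _
  rw [h2, add_div]
  refine (norm_add_le _ _).trans_lt ?_
  have h4 : ‖MS (fun n => F (t n) - G (t n)) N / (N : ℂ)‖ ≤ dist F G := by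
    rw [norm_div, Complex.norm_natCast, div_le_iff₀ hNp, mul_comm]
    exact h3
  linarith

end XTHaux

open XTHaux in
theorem st_XTH3 (h1 : ST_XMN) (h2 : ST_XSD) : ST_XTH3 := by
  intro r d S Φ hS hΦ F y
  have hF : F ∈ closure ((Submodule.span ℂ {F : C(T r × UU d, ℂ) |
      ∃ (f : C(T r, ℂ)) (L : ℕ) (s : Fin L → Bool) (k : Fin L → ℕ)
        (I J : ∀ l : Fin L, Fin (d (k l))), ∀ y, F y = f y.1 * mono s k I J y.2} :
      Submodule ℂ C(T r × UU d, ℂ)) : Set C(T r × UU d, ℂ)) := by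
    rw [h2 r d]
    exact Set.mem_univ F
  refine closure_step (fun n => (SK3 S Φ)^[n] y) _ ?_ F hF
  intro G hG
  refine Submodule.span_induction (p := fun (G : C(T r × UU d, ℂ)) _ =>
    Tendsto (fun N : ℕ => MS (fun n => G ((SK3 S Φ)^[n] y)) N / (N : ℂ)) atTop (𝓝 0)) ?_ ?_ ?_ ?_ hG
  · rintro G ⟨f, L, s, k, I, J, hG⟩
    have := h1 r d S Φ hS hΦ f L s k I J y
    refine this.congr fun N => ?_
    congr 2
    funext n
    exact (hG _).symm
  · refine tendsto_const_nhds.congr fun N => ?_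
    simp [MS]
  · intro G H _ _ hG hH
    have := hG.add hH
    rw [add_zero] at this
    refine this.congr fun N => ?_
    rw [← add_div, ← MS_add]
    rfl
  · intro c G _ hG
    have := hG.const_mul c
    rw [mul_zero] at this
    refine this.congr fun N => ?_
    rw [← mul_div_assoc, ← MS_smul]
    rfl

end Pool.Agent.Helper40.DZ
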