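import Pool.Agent.Helper40.DZ.Stmts2
import Pool.Agent.Helper97.DZ.XTH3

/-! Module XTH4: the theorem for skew products, arbitrary measure. -/

open Finset Filter MeasureTheory Topology
open scoped ComplexConjugate InnerProductSpace

namespace Pool.Agent.Helper40.DZ

open Pool.Agent.Helper16.AZ (T E Op mm)
open Pool.Agent.Helper16.MD (MS)

open XTHaux in
theorem st_XTH4 (h1 : ST_XMN4) (h2 : ST_XSD) : ST_XTH4 := by
  intro r d ν S Φ hS hΦ F y
  have hF : F ∈ closure ((Submodule.span ℂ {F : C(T r × UU d, ℂ) |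
      ∃ (f : C(T r, ℂ)) (L : ℕ) (s : Fin L → Bool) (k : Fin L → ℕ)
        (I J : ∀ l : Fin L, Fin (d (k l))), ∀ y, F y = f y.1 * mono s k I J y.2} :
      Submodule ℂ C(T r × UU d, ℂ)) : Set C(T r × UU d, ℂ)) := by
    rw [h2 r d]
    exact Set.mem_univ F
  refine closure_step (fun n => (SK3 S Φ)^[n] y) _ ?_ F hF
  intro G hG
  refine Submodule.span_induction (p := fun (G : C(T r × UU d, ℂ)) _ =>
    Tendsto (fun N : ℕ => MS (fun n => G ((SK3 S Φ)^[n] y)) N / (N : ℂ)) atTop (𝓝 0)) ?_ ?_ ?_ ?_ hG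
  · rintro G ⟨f, L, s, k, I, J, hG⟩
    have := h1 r d ν S Φ hS hΦ f L s k I J y
    refine this.congr fun N => ?_
    congr 2
    funext n
    exact (hG _).symm
  · refine tendsto_const_nhds.congr fun N => ?_
    simp [MS]
  · intro G H _ _ hG hH
    have := hG.add hH
    rw [add_zero] at this
    refine this.congr fun N => ?_
    rw [← add_div, ← MS_add]
    rfl
  · intro c G _ hG
    have := hG.const_mul c
    rw [mul_zero] at this
    refine this.congr fun N => ?_
    rw [← mul_div_assoc, ← MS_smul]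
    rfl

end Pool.Agent.Helper40.DZ
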